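import Pool.Agent.Helper156_SP.Fin6

set_option autoImplicit false

/-!
# MP_069854_nt: moments of zeta with shifts of size `1 / log T`, and the phase of `Q_k(α, T)` for even `k`

Let `A ≥ 0`.

* For real `p > 0` there are `c, W > 0` such that for all large `T`, all `n`, all real shifts `|α_j| ≤ A` and all exponents
  `q_j ≥ 0` with `∑ q_j = p`: `∫_0^T ∏ |ζ(1/2 + i (t + α_j / log T))|^(q_j) dt ≥ c ∫_0^(T-W) |ζ(1/2 + it)|^p dt`, and for
  `p ≥ 2` the left side is at least `c T (log T)^(p²/4)`.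
* The moment `absQk k α T`, that is `Q_k(α, T)` with absolute values inside the integral, is bounded below by a positive constant
  for all large `T` and all `|α| ≤ A`.
* For even `k`, every `ε > 0` and every large `S` there is one `T` in `[S, S^(2k+2)]` such that
  `Re (e^(ikα) Q_k(α, T)) ≥ (1 - ε) absQk k α T` for all `|α| ≤ A`.
* For even `k` and every real `α`: if `Q_k(α, T)` has a limit as `T → ∞`, then the limit is `r e^(-ikα)` with `r > 0`.
-/

open Complex MeasureTheory Filter Topology Set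

namespace Pool.Agent.Results.MP_069854_nt.MicroscopicShifts

open Pool.Agent.Helper156_SP

/-- The normalised shifted moment `Q_k(α,T)` of the problem. -/
noncomputable def Qk (k : ℕ) (α T : ℝ) : ℂ :=
  (T : ℂ)⁻¹ * ((Real.log T : ℂ) ^ (k ^ 2))⁻¹ *
    ∫ t in (0:ℝ)..T, riemannZeta (1 / 2 + I * α / Real.log T + I * t) ^ k *
      riemannZeta (1 / 2 + I * α / Real.log T - I * t) ^ k

/-- The same moment with absolute values inside the integral. -/
noncomputable def absQk (k : ℕ) (α T : ℝ) : ℝ :=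
  T⁻¹ * (Real.log T ^ (k ^ 2))⁻¹ *
    ∫ t in (0:ℝ)..T, ‖riemannZeta (1 / 2 + I * α / Real.log T + I * t)‖ ^ k *
      ‖riemannZeta (1 / 2 + I * α / Real.log T - I * t)‖ ^ k

lemma Qk_eq (k : ℕ) (α T : ℝ) : Qk k α T =
    ((T⁻¹ * (Real.log T ^ (k ^ 2))⁻¹ : ℝ) : ℂ) * ∫ t in (0:ℝ)..T, J k (α / Real.log T) t := by
  unfold Qk
  rw [intervalIntegral.integral_congr (fun t _ => J_prob k α T t)]
  push_cast
  ring

lemma absQk_eq (k : ℕ) (α T : ℝ) : absQk k α T =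
    T⁻¹ * (Real.log T ^ (k ^ 2))⁻¹ * ∫ t in (0:ℝ)..T, Gm k (α / Real.log T) t := by
  unfold absQk
  congr 1
  refine intervalIntegral.integral_congr fun t _ => ?_
  show ‖riemannZeta (1 / 2 + I * α / Real.log T + I * t)‖ ^ k *
      ‖riemannZeta (1 / 2 + I * α / Real.log T - I * t)‖ ^ k = Gm k (α / Real.log T) t
  rw [← norm_pow, ← norm_pow, ← norm_mul, J_prob, J_norm]
  rfl

lemma norm_Qk_le (k : ℕ) (α : ℝ) {T : ℝ} (hT : 1 ≤ T) : ‖Qk k α T‖ ≤ absQk k α T := by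
  have hl : 0 ≤ Real.log T := Real.log_nonneg hT
  rw [Qk_eq, absQk_eq, norm_mul, Complex.norm_real, Real.norm_of_nonneg (by positivity)]
  apply mul_le_mul_of_nonneg_left _ (by positivity)
  refine (intervalIntegral.norm_integral_le_integral_norm (by linarith)).trans (le_of_eq ?_)
  exact intervalIntegral.integral_congr fun t _ => J_norm _ _ _

theorem result (A : ℝ) (hA : 0 ≤ A) :
    -- comparison with the unshifted moment, all real orders
    (∀ p : ℝ, 0 < p → ∃ c W T₀ : ℝ, 0 < c ∧ 0 < W ∧ ∀ T : ℝ, T₀ ≤ T → ∀ (n : ℕ) (α q : Fin n → ℝ),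
      (∀ j, |α j| ≤ A) → (∀ j, 0 ≤ q j) → ∑ j, q j = p →
      c * ∫ t in (0:ℝ)..(T - W), ‖riemannZeta (1 / 2 + t * I)‖ ^ p ≤
        ∫ t in (0:ℝ)..T, ∏ j, ‖riemannZeta (1 / 2 + (t + α j / Real.log T : ℝ) * I)‖ ^ q j ∧
      (2 ≤ p → c * (T * Real.log T ^ (p ^ 2 / 4)) ≤
        ∫ t in (0:ℝ)..T, ∏ j, ‖riemannZeta (1 / 2 + (t + α j / Real.log T : ℝ) * I)‖ ^ q j)) ∧
    -- absolute moments
    (∀ k : ℕ, 1 ≤ k → ∃ c T₀ : ℝ, 0 < c ∧ ∀ T : ℝ, T₀ ≤ T → ∀ α : ℝ, |α| ≤ A → c ≤ absQk k α T) ∧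
    -- even `k`: no cancellation for some `T` in every long interval
    (∀ k : ℕ, 1 ≤ k → Even k → ∀ ε : ℝ, 0 < ε → ∃ S₀ : ℝ, ∀ S : ℝ, S₀ ≤ S → ∃ T ∈ Icc S (S ^ (2 * k + 2)),
      ∀ α : ℝ, |α| ≤ A → (1 - ε) * absQk k α T ≤ (exp (I * (k * α)) * Qk k α T).re) ∧
    -- even `k`: the limit, if it exists
    (∀ k : ℕ, 1 ≤ k → Even k → ∀ (α : ℝ) (L : ℂ), Tendsto (fun T : ℝ => Qk k α T) atTop (𝓝 L) →
      ∃ r : ℝ, 0 < r ∧ L = r * exp (-(I * (k * α)))) := by
  -- absolute moments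
  have part2 : ∀ A : ℝ, 0 ≤ A → ∀ k : ℕ, 1 ≤ k → ∃ c T₀ : ℝ, 0 < c ∧ ∀ T : ℝ, T₀ ≤ T → ∀ α : ℝ, |α| ≤ A →
      c ≤ absQk k α T := by
    intro A hA k hk
    have hk1 : (1:ℝ) ≤ k := by exact_mod_cast hk
    obtain ⟨c, W, T₀, hc, hW, h⟩ := shifts_main hA (p := 2 * (k:ℝ)) (by linarith)
    refine ⟨c, max T₀ 2, hc, fun T hT α hα => ?_⟩
    have hT0 : T₀ ≤ T := (le_max_left _ _).trans hT
    have hT2 : 2 ≤ T := (le_max_right _ _).trans hT
    have hl : 0 < Real.log T := Real.log_pos (by linarith)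
    have h2 := (h T hT0 2 ![α, -α] (fun _ => k) (by
      intro j
      fin_cases j
      · exact hα
      · show |(-α)| ≤ A
        rw [abs_neg]; exact hα) (fun _ => by positivity) (by simp)).2 (by linarith)
    have e : ∀ t : ℝ, ∏ j : Fin 2, az (t + (![α, -α] : Fin 2 → ℝ) j / Real.log T) ^ (k:ℝ) =
        Gm k (α / Real.log T) t := by
      intro t
      rw [Fin.prod_univ_two, Real.rpow_natCast, Real.rpow_natCast]
      unfold Gm
      simp only [Matrix.cons_val_zero, Matrix.cons_val_one, neg_div]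
      rfl
    simp only [e] at h2
    have e2 : Real.log T ^ ((2 * (k:ℝ)) ^ 2 / 4) = Real.log T ^ (k ^ 2) := by
      rw [← Real.rpow_natCast (Real.log T) (k ^ 2)]
      congr 1
      push_cast; ring
    rw [e2] at h2
    rw [absQk_eq]
    have hlk : 0 < Real.log T ^ (k ^ 2) := by positivity
    have hT0' : 0 < T := by linarith
    calc c = T⁻¹ * (Real.log T ^ (k ^ 2))⁻¹ * (c * (T * Real.log T ^ (k ^ 2))) := by field_simp
      _ ≤ _ := mul_le_mul_of_nonneg_left h2 (by positivity)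
  have part3 : ∀ A : ℝ, 0 ≤ A → ∀ k : ℕ, 1 ≤ k → Even k → ∀ ε : ℝ, 0 < ε → ∃ S₀ : ℝ, ∀ S : ℝ, S₀ ≤ S →
      ∃ T ∈ Icc S (S ^ (2 * k + 2)), ∀ α : ℝ, |α| ≤ A →
        (1 - ε) * absQk k α T ≤ (exp (I * (k * α)) * Qk k α T).re := by
    intro A hA k hk hev ε hε
    obtain ⟨m, rfl⟩ := hev.exists_two_nsmul
    rw [smul_eq_mul] at hk ⊢
    have hm : 1 ≤ m := by omega
    obtain ⟨-, -, -, -, h⟩ := Q_phase hm hA
    obtain ⟨S₀, hS₀⟩ := h ε hε
    refine ⟨max S₀ 1, fun S hS => ?_⟩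
    obtain ⟨T, hT, hT2⟩ := hS₀ S ((le_max_left _ _).trans hS)
    have hT1 : 1 ≤ T := ((le_max_right _ _).trans hS).trans hT.1
    refine ⟨T, ?_, fun α hα => ?_⟩
    · have e : 2 * (2 * m) + 2 = 4 * m + 2 := by ring
      rw [e]; exact hT
    have h1 := hT2 α hα
    have hl : 0 ≤ Real.log T := Real.log_nonneg hT1
    have e2 : exp (I * (((2 * m : ℕ) : ℂ) * α)) * Qk (2 * m) α T =
        ((T⁻¹ * (Real.log T ^ ((2 * m) ^ 2))⁻¹ : ℝ) : ℂ) *
          (exp (I * ((2 * m * α : ℝ) : ℂ)) * ∫ t in (0:ℝ)..T, J (2 * m) (α / Real.log T) t) := by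
      rw [Qk_eq]
      have : I * (((2 * m : ℕ) : ℂ) * α) = I * ((2 * m * α : ℝ) : ℂ) := by push_cast; ring
      rw [this]
      ring
    rw [e2, Complex.re_ofReal_mul, absQk_eq]
    have h2 := mul_le_mul_of_nonneg_left h1 (by positivity : 0 ≤ T⁻¹ * (Real.log T ^ ((2 * m) ^ 2))⁻¹)
    linarith
  refine ⟨fun p hp => shifts_main hA hp, part2 A hA, part3 A hA, fun k hk hev α L hL => ?_⟩
  obtain ⟨c, T₀, hc, h2⟩ := part2 |α| (abs_nonneg α) k hk
  set w : ℂ := exp (I * (k * α)) * L with hw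
  have hne : ‖exp (I * ((k:ℂ) * α))‖ = 1 := by
    have : I * ((k:ℂ) * α) = ((k * α : ℝ) : ℂ) * I := by push_cast; ring
    rw [this, Complex.norm_exp_ofReal_mul_I]
  have hlim : Tendsto (fun T : ℝ => exp (I * (k * α)) * Qk k α T) atTop (𝓝 w) := hL.const_mul _
  have hnw : ‖w‖ = ‖L‖ := by rw [hw, norm_mul, hne, one_mul]
  have hfreq : ∀ ε : ℝ, 0 < ε → ε ≤ 1 → ∃ᶠ T : ℝ in atTop,
      (1 - ε) * ‖Qk k α T‖ ≤ (exp (I * (k * α)) * Qk k α T).re ∧
      (1 - ε) * c ≤ (exp (I * (k * α)) * Qk k α T).re := by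
    intro ε hε hε1
    obtain ⟨S₀, hS₀⟩ := part3 |α| (abs_nonneg α) k hk hev ε hε
    rw [frequently_atTop]
    intro a
    obtain ⟨T, hT, h3⟩ := hS₀ (max (max S₀ T₀) (max a 1)) ((le_max_left _ _).trans (le_max_left _ _))
    have hT1 : max (max S₀ T₀) (max a 1) ≤ T := hT.1
    have h1 : 1 ≤ T := ((le_max_right _ _).trans (le_max_right _ _)).trans hT1
    have ha : a ≤ T := ((le_max_left _ _).trans (le_max_right _ _)).trans hT1
    have hT0 : T₀ ≤ T := ((le_max_right _ _).trans (le_max_left _ _)).trans hT1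
    have h4 := h3 α le_rfl
    have h5 := norm_Qk_le k α h1
    have h6 := h2 T hT0 α le_rfl
    refine ⟨T, ha, ?_, ?_⟩
    · exact (mul_le_mul_of_nonneg_left h5 (by linarith)).trans h4
    · exact (mul_le_mul_of_nonneg_left h6 (by linarith)).trans h4
  have hre : ∀ ε : ℝ, 0 < ε → ε ≤ 1 → (1 - ε) * ‖w‖ ≤ w.re ∧ (1 - ε) * c ≤ w.re := by
    intro ε hε hε1
    have hr : Tendsto (fun T : ℝ => (exp (I * (k * α)) * Qk k α T).re) atTop (𝓝 w.re) :=
      (Complex.continuous_re.tendsto _).comp hlim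
    constructor
    · have h3 : Tendsto (fun T : ℝ => (exp (I * (k * α)) * Qk k α T).re - (1 - ε) * ‖Qk k α T‖) atTop
          (𝓝 (w.re - (1 - ε) * ‖L‖)) := hr.sub (hL.norm.const_mul _)
      have h4 : 0 ≤ w.re - (1 - ε) * ‖L‖ := by
        apply ge_of_tendsto_of_frequently h3
        exact (hfreq ε hε hε1).mono fun T hT => sub_nonneg.2 hT.1
      rw [hnw]; linarith
    · exact ge_of_tendsto_of_frequently hr ((hfreq ε hε hε1).mono fun T hT => hT.2)
  have hpos : 0 < w.re := by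
    have := (hre (1 / 2) (by norm_num) (by norm_num)).2
    linarith
  have hge : ‖w‖ ≤ w.re := by
    by_contra hcon
    push Not at hcon
    have hwn : 0 < ‖w‖ := hpos.trans hcon
    set ε : ℝ := (‖w‖ - w.re) / (2 * ‖w‖) with hε
    have hε0 : 0 < ε := div_pos (by linarith) (by positivity)
    have hε1 : ε ≤ 1 := by
      rw [hε, div_le_one (by positivity)]; linarith
    have h3 := (hre ε hε0 hε1).1
    have h4 : ε * ‖w‖ = (‖w‖ - w.re) / 2 := by rw [hε]; field_simp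
    linarith
  have hre_eq : w.re = ‖w‖ := le_antisymm (Complex.re_le_norm w) hge
  have him : w.im = 0 := by
    have h3 : ‖w‖ ^ 2 = w.re ^ 2 + w.im ^ 2 := by rw [← Complex.normSq_eq_norm_sq, Complex.normSq_apply]; ring
    rw [← hre_eq] at h3
    have : w.im ^ 2 = 0 := by linarith
    exact pow_eq_zero_iff (two_ne_zero) |>.1 this
  refine ⟨w.re, hpos, ?_⟩
  have hwr : (w.re : ℂ) = w := Complex.ext (by simp) (by simp [him])
  rw [hwr, hw, mul_assoc, mul_comm L, ← mul_assoc, ← Complex.exp_add, add_neg_cancel, Complex.exp_zero, one_mul]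

end Pool.Agent.Results.MP_069854_nt.MicroscopicShifts
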